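import Pool.Agent.Q44.LD.Stm
import Pool.Agent.Q299.JQ.ORT

/-! # Project LD (helper44), job UNL: unlinked and full families (helper203) -/

set_option autoImplicit false
set_option linter.unusedSectionVars false

namespace Pool.Agent.Q203.LD

open Finset Module Q44.JQ Q44.LD Pool.Agent.Q299.JQ
open scoped Classical

/-- isotropic subspaces of a nondegenerate form -/
lemma iso_max {W : Type*} [AddCommGroup W] [Module (ZMod 2) W] [Finite W]
    (P : LinearMap.BilinForm (ZMod 2) W)
    (hs : ∀ x y, P x y = P y x) (hnd : ∀ x, (∀ y, P x y = 0) → x = 0)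
    (Λ : Submodule (ZMod 2) W) (hiso : ∀ x ∈ Λ, ∀ y ∈ Λ, P x y = 0) (N : ℕ)
    (hN : Nat.card W = N * N) :
    Nat.card Λ ≤ N ∧ (N ≤ Nat.card Λ → ∀ x, (∀ y ∈ Λ, P x y = 0) → x ∈ Λ) := by
  have hker : LinearMap.ker P = ⊥ := by
    rw [LinearMap.ker_eq_bot']
    intro z hz
    exact hnd z fun y => by rw [hz, LinearMap.zero_apply]
  have h5 := LinearMap.BilinForm.finrank_add_finrank_orthogonal' (B := P) Λ
  rw [hker, inf_bot_eq, finrank_bot, add_zero] at h5
  have h6 : Λ ≤ P.orthogonal Λ := fun z hz w hw => hiso w hw z hz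
  have e1 := Module.natCard_eq_pow_finrank (K := ZMod 2) (V := Λ)
  have e2 := Module.natCard_eq_pow_finrank (K := ZMod 2) (V := P.orthogonal Λ)
  have e3 := Module.natCard_eq_pow_finrank (K := ZMod 2) (V := W)
  have hcard : Nat.card Λ * Nat.card (P.orthogonal Λ) = N * N := by
    rw [← hN, e1, e2, e3, ← pow_add, h5]
  have h7 : Nat.card Λ ≤ Nat.card (P.orthogonal Λ) := by
    rw [e1, e2]
    exact Nat.pow_le_pow_right (by simp) (Submodule.finrank_mono h6)
  have h8 : Nat.card Λ ≤ N := by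
    by_contra h
    push Not at h
    nlinarith
  refine ⟨h8, fun h9 x hx => ?_⟩
  have h10 : Nat.card Λ = N := le_antisymm h8 h9
  have h10' : 0 < N := by rw [← h10]; exact Nat.card_pos
  have h11 : Nat.card (P.orthogonal Λ) = N := by
    rw [h10] at hcard
    exact Nat.eq_of_mul_eq_mul_left h10' hcard
  have h12 : finrank (ZMod 2) Λ = finrank (ZMod 2) (P.orthogonal Λ) := by
    rw [← h10, e1, e2] at h11
    exact (Nat.pow_right_injective (le_of_eq (by simp)) h11).symm
  have h13 : Λ = P.orthogonal Λ := Submodule.eq_of_le_of_finrank_eq h6 h12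
  rw [h13]
  intro w hw
  show P w x = 0
  rw [hs]
  exact hx w hw

/-- differences of pairwise unlinked vectors -/
lemma span_sing {W : Type*} [AddCommGroup W] [Module (ZMod 2) W] (q : W → ZMod 2)
    (p : LinearMap.BilinForm (ZMod 2) W) (hq : ∀ x y, q (x + y) = q x + q y + p x y)
    (hq0 : q 0 = 0) (A : Set W) (hA : ∀ x ∈ A, ∀ y ∈ A, q (x + y) = 0) :
    (∀ z ∈ Submodule.span (ZMod 2) {w | ∃ x ∈ A, ∃ y ∈ A, w = x + y}, q z = 0) ∧
    ∀ z ∈ Submodule.span (ZMod 2) {w | ∃ x ∈ A, ∃ y ∈ A, w = x + y},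
      ∀ w ∈ Submodule.span (ZMod 2) {w | ∃ x ∈ A, ∃ y ∈ A, w = x + y}, p z w = 0 := by
  have h2 : ∀ v : W, v + v = 0 := fun v => ZModModule.add_self v
  have hadj : ∀ x ∈ A, ∀ y ∈ A, ∀ z ∈ A, p (x + y) (x + z) = 0 := by
    intro x hx y hy z hz
    have h3 := hq (x + y) (x + z)
    have h4 : x + y + (x + z) = y + z := by
      have : x + y + (x + z) = (x + x) + (y + z) := by abel
      rw [this, h2, zero_add]
    rw [h4, hA y hy z hz, hA x hx y hy, hA x hx z hz, zero_add, zero_add] at h3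
    exact h3.symm
  have hpol : ∀ x ∈ A, ∀ y ∈ A, ∀ z ∈ A, ∀ w ∈ A, p (x + y) (z + w) = 0 := by
    intro x hx y hy z hz w hw
    have h4 : z + w = (x + z) + (x + w) := by
      have : (x + z) + (x + w) = (x + x) + (z + w) := by abel
      rw [this, h2, zero_add]
    rw [h4, map_add, hadj x hx y hy z hz, hadj x hx y hy w hw, zero_add]
  have hsp : ∀ z ∈ Submodule.span (ZMod 2) {w | ∃ x ∈ A, ∃ y ∈ A, w = x + y},
      ∀ w ∈ Submodule.span (ZMod 2) {w | ∃ x ∈ A, ∃ y ∈ A, w = x + y}, p z w = 0 := by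
    intro z hz w hw
    induction hz using Submodule.span_induction with
    | mem z hz =>
      obtain ⟨x, hx, y, hy, rfl⟩ := hz
      induction hw using Submodule.span_induction with
      | mem w hw =>
        obtain ⟨x', hx', y', hy', rfl⟩ := hw
        exact hpol x hx y hy x' hx' y' hy'
      | zero => rw [map_zero]
      | add w w' _ _ h h' => rw [map_add, h, h', zero_add]
      | smul a w _ h => rw [map_smul, h, smul_zero]
    | zero => rw [map_zero, LinearMap.zero_apply]
    | add z z' _ _ h h' => rw [map_add, LinearMap.add_apply, h, h', zero_add]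
    | smul a z _ h => rw [map_smul, LinearMap.smul_apply, h, smul_zero]
  refine ⟨fun z hz => ?_, hsp⟩
  induction hz using Submodule.span_induction with
  | mem z hz =>
    obtain ⟨x, hx, y, hy, rfl⟩ := hz
    exact hA x hx y hy
  | zero => exact hq0
  | add z z' h3 h4 h h' => rw [hq, h, h', hsp z h3 z' h4, zero_add, zero_add]
  | smul a z h3 h =>
    rcases (show a = 0 ∨ a = 1 by revert a; decide) with rfl | rfl
    · rw [zero_smul]; exact hq0
    · rw [one_smul]; exact h

section pol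
variable {V : Type} [AddCommGroup V] [Module (ZMod 2) V]

lemma polB_symm (ω : V →ₗ[ZMod 2] V →ₗ[ZMod 2] ZMod 2) (z w : V × V) :
    polB ω z w = polB ω w z := by
  rw [polB_apply, polB_apply, add_comm]

lemma polB_nd (ω : V →ₗ[ZMod 2] V →ₗ[ZMod 2] ZMod 2) (halt : ∀ x, ω x x = 0)
    (hnd : ∀ x, (∀ y, ω x y = 0) → x = 0) (w : V × V) (hw : ∀ z, polB ω w z = 0) : w = 0 := by
  have h3 : w.2 = 0 := by
    apply hnd
    intro y
    have := hw (y, 0)
    rw [polB_apply] at this
    simpa using this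
  have h4 : w.1 = 0 := by
    apply hnd
    intro y
    have := hw (0, y)
    rw [polB_apply] at this
    have h5 : ω y w.1 = 0 := by simpa using this
    have h6 := halt (y + w.1)
    simp only [map_add, LinearMap.add_apply, halt, zero_add, add_zero, h5] at h6
    exact h6
  exact Prod.ext h4 h3

end pol

section fam

variable {F : Type} [Fintype F] {V : F → Type} [∀ f, AddCommGroup (V f)]
  [∀ f, Module (ZMod 2) (V f)] (ω : ∀ f, V f →ₗ[ZMod 2] V f →ₗ[ZMod 2] ZMod 2)

/-- the quadratic form of the forms in `O` -/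
noncomputable def QO (O : Finset F) (x : ∀ f, V f × V f) : ZMod 2 :=
  ∑ f ∈ O, ω f (x f).2 (x f).1

/-- its polar form -/
noncomputable def PO (O : Finset F) : LinearMap.BilinForm (ZMod 2) (∀ f, V f × V f) :=
  ∑ f ∈ O, (polB (ω f)).compl₁₂ (LinearMap.proj f) (LinearMap.proj f)

lemma PO_apply (O : Finset F) (x y : ∀ f, V f × V f) :
    PO ω O x y = ∑ f ∈ O, polB (ω f) (x f) (y f) := by
  unfold PO
  rw [LinearMap.sum_apply, LinearMap.sum_apply]
  rfl

lemma QO_add (O : Finset F) (x y : ∀ f, V f × V f) :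
    QO ω O (x + y) = QO ω O x + QO ω O y + PO ω O x y := by
  unfold QO
  rw [PO_apply, ← Finset.sum_add_distrib, ← Finset.sum_add_distrib]
  exact Finset.sum_congr rfl fun f _ => Q_add (ω f) (x f) (y f)

lemma QO_zero (O : Finset F) : QO ω O 0 = 0 := by
  unfold QO
  exact Finset.sum_eq_zero fun f _ => by simp

lemma PO_symm (O : Finset F) (x y : ∀ f, V f × V f) : PO ω O x y = PO ω O y x := by
  rw [PO_apply, PO_apply]
  exact Finset.sum_congr rfl fun f _ => polB_symm (ω f) _ _

/-- the families supported in `O` -/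
def MO (V : F → Type) [∀ f, AddCommGroup (V f)] [∀ f, Module (ZMod 2) (V f)] (O : Finset F) :
    Submodule (ZMod 2) (∀ f, V f × V f) where
  carrier := {x | ∀ f, f ∉ O → x f = 0}
  zero_mem' := fun _ _ => rfl
  add_mem' := fun {x y} hx hy f hf => by rw [Pi.add_apply, hx f hf, hy f hf, add_zero]
  smul_mem' := fun a x hx f hf => by rw [Pi.smul_apply, hx f hf, smul_zero]

lemma mem_MO (O : Finset F) (x : ∀ f, V f × V f) : x ∈ MO V O ↔ ∀ f, f ∉ O → x f = 0 := Iff.rfl

lemma single_mem_MO (O : Finset F) (f : F) (hf : f ∈ O) (v : V f × V f) :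
    Pi.single f v ∈ MO V O := by
  intro g hg
  have h : g ≠ f := fun h => hg (by rw [h]; exact hf)
  show (Pi.single f v : ∀ f, V f × V f) g = 0
  exact Pi.single_eq_of_ne (M := fun f => V f × V f) h v

lemma card_MO [∀ f, Finite (V f)] (O : Finset F) :
    Nat.card (MO V O) = (∏ f, if f ∈ O then Nat.card (V f) else 1) *
      ∏ f, if f ∈ O then Nat.card (V f) else 1 := by
  let e : MO V O ≃ ∀ f, {v : V f × V f // f ∉ O → v = 0} :=
    { toFun := fun x f => ⟨x.1 f, x.2 f⟩
      invFun := fun y => ⟨fun f => (y f).1, fun f => (y f).2⟩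
      left_inv := fun _ => rfl
      right_inv := fun _ => rfl }
  rw [Nat.card_congr e, Nat.card_pi, ← Finset.prod_mul_distrib]
  refine Finset.prod_congr rfl fun f _ => ?_
  by_cases h : f ∈ O
  · rw [if_pos h, ← Nat.card_prod]
    exact Nat.card_congr (Equiv.subtypeUnivEquiv fun v h' => absurd h h')
  · rw [if_neg h, mul_one]
    have : Unique {v : V f × V f // f ∉ O → v = 0} :=
      ⟨⟨⟨0, fun _ => rfl⟩⟩, fun v => Subtype.ext (v.2 h)⟩
    exact Nat.card_unique

lemma iso_MO [∀ f, Finite (V f)] (halt : ∀ f x, ω f x x = 0)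
    (hnd : ∀ f x, (∀ y, ω f x y = 0) → x = 0) (O : Finset F)
    (Λ : Submodule (ZMod 2) (∀ f, V f × V f)) (hΛ : Λ ≤ MO V O)
    (hiso : ∀ x ∈ Λ, ∀ y ∈ Λ, PO ω O x y = 0) :
    Nat.card Λ ≤ (∏ f, if f ∈ O then Nat.card (V f) else 1) ∧
      ((∏ f, if f ∈ O then Nat.card (V f) else 1) ≤ Nat.card Λ →
        ∀ x ∈ MO V O, (∀ y ∈ Λ, PO ω O x y = 0) → x ∈ Λ) := by
  have h := iso_max ((PO ω O).compl₁₂ (MO V O).subtype (MO V O).subtype)
    (fun x y => PO_symm ω O _ _) ?_ (Λ.comap (MO V O).subtype)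
    (fun x hx y hy => hiso _ hx _ hy) _ (card_MO O)
  · rw [Nat.card_congr (Submodule.comapSubtypeEquivOfLe hΛ).toEquiv] at h
    exact ⟨h.1, fun h1 x hx hxy => h.2 h1 ⟨x, hx⟩ fun y hy => hxy _ hy⟩
  · intro x hx
    apply Subtype.ext
    funext f
    by_cases hf : f ∈ O
    · refine polB_nd (ω f) (halt f) (hnd f) _ fun z => ?_
      have h1 : PO ω O x.1 (Pi.single f z) = 0 := hx ⟨Pi.single f z, single_mem_MO O f hf z⟩
      rw [PO_apply, Finset.sum_eq_single f] at h1
      · rwa [Pi.single_eq_same] at h1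
      · intro g _ hg
        rw [Pi.single_eq_of_ne hg, map_zero]
      · intro h
        exact absurd hf h
    · exact x.2 f hf

/-- the restriction to `O` -/
noncomputable def res (O : Finset F) (x : ∀ f, V f × V f) : ∀ f, V f × V f :=
  fun f => if f ∈ O then x f else 0

lemma res_apply (O : Finset F) (x : ∀ f, V f × V f) (f : F) :
    res O x f = if f ∈ O then x f else 0 := rfl

lemma PO_res (O O' : Finset F) (hO : O ⊆ O') (x y : ∀ f, V f × V f) :
    PO ω O' (res O x) y = PO ω O x y := by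
  rw [PO_apply, PO_apply, ← Finset.sum_subset hO]
  · refine Finset.sum_congr rfl fun f hf => ?_
    unfold res
    rw [if_pos hf]
  · intro f _ hf
    unfold res
    rw [if_neg hf, map_zero, LinearMap.zero_apply]

end fam

theorem t_UNL : S_UNL := by
  intro F ι Cc _ _ _ V _ _ _ ω halt hnd I hI hIne col B hB Z hU hFull
  have hne : ∀ f, 0 < Nat.card (V f) := fun f => Nat.card_pos
  -- the values
  set vv : ι → ∀ f, V f × V f := vl B Z with hvv
  set J : Cc → Finset F := fun c => univ.filter fun f => c ∈ I f with hJ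
  have hmJ : ∀ c f, f ∈ J c ↔ c ∈ I f := fun c f => by simp [hJ]
  have hv0 : ∀ i f, col i ∉ I f → vv i f = 0 := by
    intro i f h
    have h' : ¬ B f i := fun hb => h ((hB f i).1 hb)
    rw [hvv]
    unfold vl
    rw [dif_neg h']
  have hv1 : ∀ i f (h : B f i), vv i f = Z f ⟨i, h⟩ := by
    intro i f h
    rw [hvv]
    unfold vl
    rw [dif_pos h]
  have hQ : ∀ i j, QO ω (J (col i) ∩ J (col j)) (vv i + vv j) = 0 := by
    intro i j
    have h1 := hU i j
    unfold lk at h1
    rw [← h1]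
    unfold QO
    rw [← Finset.sum_subset (Finset.subset_univ (J (col i) ∩ J (col j)))]
    · refine Finset.sum_congr rfl fun f hf => ?_
      rw [Finset.mem_inter, hmJ, hmJ] at hf
      have hb : B f i ∧ B f j := ⟨(hB f i).2 hf.1, (hB f j).2 hf.2⟩
      rw [dif_pos hb, Pi.add_apply, hv1 i f hb.1, hv1 j f hb.2]
    · intro f _ hf
      rw [Finset.mem_inter, hmJ, hmJ] at hf
      rw [dif_neg]
      rintro ⟨h2, h3⟩
      exact hf ⟨(hB f i).1 h2, (hB f j).1 h3⟩
  have h2 : ∀ v : (∀ f, V f × V f), v + v = 0 := fun v => ZModModule.add_self v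
  -- the spans
  set A : Cc → Set (∀ f, V f × V f) := fun c => {x | ∃ i, col i = c ∧ x = vv i} with hA
  set Λ : Cc → Submodule (ZMod 2) (∀ f, V f × V f) := fun c =>
    Submodule.span (ZMod 2) {w | ∃ x ∈ A c, ∃ y ∈ A c, w = x + y} with hΛ
  have hsing : ∀ c, (∀ z ∈ Λ c, QO ω (J c) z = 0) ∧ ∀ z ∈ Λ c, ∀ w ∈ Λ c,
      PO ω (J c) z w = 0 := by
    intro c
    refine span_sing (QO ω (J c)) (PO ω (J c)) (QO_add ω (J c)) (QO_zero ω (J c)) (A c) ?_
    rintro _ ⟨i, rfl, rfl⟩ _ ⟨j, hj, rfl⟩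
    have := hQ i j
    rwa [hj, Finset.inter_self] at this
  have hsup : ∀ c, Λ c ≤ MO V (J c) := by
    intro c
    refine Submodule.span_le.2 ?_
    rintro _ ⟨_, ⟨i, rfl, rfl⟩, _, ⟨j, hj, rfl⟩, rfl⟩ f hf
    rw [hmJ] at hf
    rw [Pi.add_apply, hv0 i f hf, hv0 j f (by rw [hj]; exact hf), add_zero]
  have hvc : ∀ c, vc V I c = ∏ f, if f ∈ J c then Nat.card (V f) else 1 := by
    intro c
    unfold vc
    exact Finset.prod_congr rfl fun f _ => by simp only [hmJ]
  have hvpos : ∀ c, 0 < vc V I c := by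
    intro c
    unfold vc
    refine Finset.prod_pos fun f _ => ?_
    split_ifs
    · exact hne f
    · exact one_pos
  have hmax : ∀ c, Nat.card (Λ c) ≤ vc V I c ∧ (vc V I c ≤ Nat.card (Λ c) →
      ∀ x ∈ MO V (J c), (∀ y ∈ Λ c, PO ω (J c) x y = 0) → x ∈ Λ c) := by
    intro c
    rw [hvc]
    exact iso_MO ω halt hnd (J c) (Λ c) (hsup c) (hsing c).2
  -- the values fill a coset
  have hz : ∀ c, ∃ i, col i = c := by
    intro c
    have h3 := (hvpos c).trans_le (hFull c)
    obtain ⟨x, hx⟩ := Finset.card_pos.1 h3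
    obtain ⟨i, hi, -⟩ := Finset.mem_image.1 hx
    exact ⟨i, (Finset.mem_filter.1 hi).2⟩
  choose ic hic using hz
  set z : Cc → ∀ f, V f × V f := fun c => vv (ic c) with hzdef
  have hcos : ∀ c, vc V I c ≤ Nat.card (Λ c) ∧ ∀ a ∈ Λ c, ∃ i, col i = c ∧ vv i = z c + a := by
    intro c
    set S : Finset (∀ f, V f × V f) := (univ.filter fun i => col i = c).image (vl B Z) with hS
    let g : S → Λ c := fun x => ⟨z c + x.1, by
      obtain ⟨i, hi, hx⟩ := Finset.mem_image.1 x.2
      refine Submodule.subset_span ⟨z c, ⟨ic c, hic c, rfl⟩, x.1,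
        ⟨i, (Finset.mem_filter.1 hi).2, hx.symm⟩, rfl⟩⟩
    have hg : Function.Injective g := by
      intro x y hxy
      have h3 : z c + x.1 = z c + y.1 := congrArg Subtype.val hxy
      exact Subtype.ext (add_left_cancel h3)
    have h3 : Nat.card S ≤ Nat.card (Λ c) := Nat.card_le_card_of_injective g hg
    have h4 : Nat.card S = S.card := by rw [Nat.card_eq_fintype_card, Fintype.card_coe]
    have h5 : vc V I c ≤ Nat.card S := by rw [h4]; exact hFull c
    have h6 : Nat.card (Λ c) ≤ Nat.card S := (hmax c).1.trans h5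
    refine ⟨h5.trans h3, fun a ha => ?_⟩
    have hgs : Function.Surjective g :=
      ((Nat.bijective_iff_injective_and_card g).2 ⟨hg, le_antisymm h3 h6⟩).2
    obtain ⟨x, hx⟩ := hgs ⟨a, ha⟩
    obtain ⟨i, hi, hix⟩ := Finset.mem_image.1 x.2
    refine ⟨i, (Finset.mem_filter.1 hi).2, ?_⟩
    have h7 : z c + x.1 = a := congrArg Subtype.val hx
    have h8 : vv i = x.1 := hix
    rw [h8, ← h7, ← add_assoc, h2, zero_add]
  have hcard : ∀ c, Nat.card (Λ c) = vc V I c := fun c =>
    le_antisymm (hmax c).1 (hcos c).1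
  have hper : ∀ c, ∀ x ∈ MO V (J c), (∀ y ∈ Λ c, PO ω (J c) x y = 0) → x ∈ Λ c := fun c =>
    (hmax c).2 (hcos c).1
  -- the relations for two colours
  have hkey : ∀ c c', ∀ a ∈ Λ c, ∀ a' ∈ Λ c',
      QO ω (J c ∩ J c') ((z c + z c') + (a + a')) = 0 := by
    intro c c' a ha a' ha'
    obtain ⟨i, hi, hia⟩ := (hcos c).2 a ha
    obtain ⟨j, hj, hja⟩ := (hcos c').2 a' ha'
    have h3 := hQ i j
    rw [hi, hj, hia, hja] at h3
    rwa [add_add_add_comm] at h3
  have hq1 : ∀ c c', ∀ a ∈ Λ c, QO ω (J c ∩ J c') a + PO ω (J c ∩ J c') (z c + z c') a = 0 := by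
    intro c c' a ha
    have h3 := hkey c c' a ha 0 (Submodule.zero_mem _)
    have h4 := hkey c c' 0 (Submodule.zero_mem _) 0 (Submodule.zero_mem _)
    rw [add_zero] at h3 h4
    rw [add_zero] at h4
    rw [QO_add, h4, zero_add] at h3
    exact h3
  have hq1' : ∀ c c', ∀ a ∈ Λ c', QO ω (J c ∩ J c') a + PO ω (J c ∩ J c') (z c + z c') a = 0 := by
    intro c c' a ha
    have h3 := hkey c c' 0 (Submodule.zero_mem _) a ha
    have h4 := hkey c c' 0 (Submodule.zero_mem _) 0 (Submodule.zero_mem _)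
    rw [zero_add] at h3
    rw [add_zero, add_zero] at h4
    rw [QO_add, h4, zero_add] at h3
    exact h3
  have hp1 : ∀ c c', ∀ a ∈ Λ c, ∀ a₁ ∈ Λ c, PO ω (J c ∩ J c') a a₁ = 0 := by
    intro c c' a ha a₁ ha₁
    have h3 := hq1 c c' (a + a₁) (Submodule.add_mem _ ha ha₁)
    rw [QO_add, map_add] at h3
    have h4 := hq1 c c' a ha
    have h5 := hq1 c c' a₁ ha₁
    linear_combination h3 - h4 - h5
  have hp2 : ∀ c c', ∀ a ∈ Λ c, ∀ a' ∈ Λ c', PO ω (J c ∩ J c') a a' = 0 := by
    intro c c' a ha a' ha'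
    have h3 := hkey c c' a ha a' ha'
    have h4 := hq1 c c' a ha
    have h5 := hq1' c c' a' ha'
    have h6 := hkey c c' 0 (Submodule.zero_mem _) 0 (Submodule.zero_mem _)
    rw [add_zero, add_zero] at h6
    rw [QO_add, h6, QO_add, map_add] at h3
    linear_combination h3 - h4 - h5
  -- restrictions
  have hres : ∀ c c', ∀ a ∈ Λ c, res (J c') a ∈ Λ c := by
    intro c c' a ha
    have h3 : res (J c') a = res (J c ∩ J c') a := by
      funext f
      rw [res_apply, res_apply]
      by_cases h4 : f ∈ J c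
      · simp [h4]
      · rw [hsup c ha f h4]
        simp
    rw [h3]
    refine hper c _ (fun f hf => ?_) fun y hy => ?_
    · rw [res_apply, if_neg]
      intro h4
      exact hf (Finset.mem_inter.1 h4).1
    · rw [PO_res ω _ _ Finset.inter_subset_left]
      exact hp1 c c' a ha y hy
  have hres1 : ∀ c f (t : Finset Cc), ∀ a ∈ Λ c,
      res (univ.filter fun g => ∀ c' ∈ t, (c' ∈ I g ↔ c' ∈ I f)) a ∈ Λ c := by
    intro c f t
    induction t using Finset.induction_on with
    | empty =>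
      intro a ha
      have : res (univ.filter fun g => ∀ c' ∈ (∅ : Finset Cc), (c' ∈ I g ↔ c' ∈ I f)) a = a := by
        funext g
        rw [res_apply, if_pos]
        simp
      rw [this]
      exact ha
    | insert c' t hc' ih =>
      intro a ha
      have h3 := ih a ha
      have h4 := hres c c' _ h3
      by_cases h5 : c' ∈ I f
      · have : res (univ.filter fun g => ∀ c'' ∈ insert c' t, (c'' ∈ I g ↔ c'' ∈ I f)) a =
            res (J c') (res (univ.filter fun g => ∀ c' ∈ t, (c' ∈ I g ↔ c' ∈ I f)) a) := by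
          funext g
          simp only [res_apply, hmJ, Finset.mem_filter, Finset.mem_univ, true_and,
            Finset.forall_mem_insert, h5, iff_true]
          by_cases h6 : c' ∈ I g <;> simp [h6]
        rw [this]
        exact h4
      · have : res (univ.filter fun g => ∀ c'' ∈ insert c' t, (c'' ∈ I g ↔ c'' ∈ I f)) a =
            res (univ.filter fun g => ∀ c' ∈ t, (c' ∈ I g ↔ c' ∈ I f)) a -
            res (J c') (res (univ.filter fun g => ∀ c' ∈ t, (c' ∈ I g ↔ c' ∈ I f)) a) := by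
          funext g
          simp only [res_apply, hmJ, Finset.mem_filter, Finset.mem_univ, true_and,
            Finset.forall_mem_insert, h5, iff_false, Pi.sub_apply]
          by_cases h6 : c' ∈ I g <;> simp [h6]
        rw [this]
        exact Submodule.sub_mem _ h3 h4
  have hres2 : ∀ c f, ∀ a ∈ Λ c, (Pi.single f (a f) : ∀ f, V f × V f) ∈ Λ c := by
    intro c f a ha
    have h3 := hres1 c f univ a ha
    have h4 : res (univ.filter fun g => ∀ c' ∈ (univ : Finset Cc), (c' ∈ I g ↔ c' ∈ I f)) a =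
        Pi.single f (a f) := by
      funext g
      rw [res_apply]
      by_cases h5 : g = f
      · subst h5
        rw [if_pos (by simp), Pi.single_eq_same]
      · rw [Pi.single_eq_of_ne h5, if_neg]
        intro h6
        apply h5
        apply hI
        ext c'
        exact (Finset.mem_filter.1 h6).2 c' (Finset.mem_univ _)
    rwa [h4] at h3
  -- the components
  set L : Cc → ∀ f, Submodule (ZMod 2) (V f × V f) := fun c f =>
    (Λ c).comap (LinearMap.single (ZMod 2) (fun f => V f × V f) f) with hL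
  have hmL : ∀ c f v, v ∈ L c f ↔ (Pi.single f v : ∀ f, V f × V f) ∈ Λ c := fun c f v => Iff.rfl
  have hΛL : ∀ c x, x ∈ Λ c ↔ ∀ f, x f ∈ L c f := by
    intro c x
    constructor
    · intro hx f
      rw [hmL]
      exact hres2 c f x hx
    · intro hx
      have h3 : x = ∑ f, (Pi.single f (x f) : ∀ f, V f × V f) :=
        (Finset.univ_sum_single x).symm
      rw [h3]
      exact Submodule.sum_mem _ fun f _ => (hmL c f _).1 (hx f)
  have hQs : ∀ (O : Finset F) f (v : V f × V f), f ∈ O →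
      QO ω O (Pi.single f v) = ω f v.2 v.1 := by
    intro O f v hf
    unfold QO
    rw [Finset.sum_eq_single f]
    · rw [Pi.single_eq_same]
    · intro g _ hg
      rw [Pi.single_eq_of_ne hg]
      simp
    · intro h
      exact absurd hf h
  have hPs : ∀ (O : Finset F) f (v : V f × V f) (x : ∀ f, V f × V f), f ∈ O →
      PO ω O x (Pi.single f v) = polB (ω f) (x f) v := by
    intro O f v x hf
    rw [PO_apply, Finset.sum_eq_single f]
    · rw [Pi.single_eq_same]
    · intro g _ hg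
      rw [Pi.single_eq_of_ne hg, map_zero]
    · intro h
      exact absurd hf h
  have hLq : ∀ c f, c ∈ I f → ∀ v ∈ L c f, ω f v.2 v.1 = 0 := by
    intro c f hc v hv
    rw [← hQs (J c) f v ((hmJ c f).2 hc)]
    exact (hsing c).1 _ hv
  have hLiso : ∀ c f, c ∈ I f → ∀ v ∈ L c f, ∀ w ∈ L c f, polB (ω f) v w = 0 := by
    intro c f hc v hv w hw
    have h3 : PO ω (J c) (Pi.single f v) (Pi.single f w) = 0 := (hsing c).2 _ hv _ hw
    rw [hPs (J c) f w _ ((hmJ c f).2 hc), Pi.single_eq_same] at h3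
    exact h3
  have hLmax : ∀ c f, c ∈ I f → Nat.card (L c f) ≤ Nat.card (V f) ∧
      (Nat.card (V f) ≤ Nat.card (L c f) → ∀ x, (∀ y ∈ L c f, polB (ω f) x y = 0) →
        x ∈ L c f) := fun c f hc =>
    iso_max (polB (ω f)) (polB_symm (ω f)) (fun x hx => polB_nd (ω f) (halt f) (hnd f) x hx)
      (L c f) (hLiso c f hc) _ (Nat.card_prod _ _)
  have hLcard : ∀ c f, c ∈ I f → Nat.card (L c f) = Nat.card (V f) := by
    intro c f hc
    let e : Λ c ≃ ∀ f, L c f :=
      { toFun := fun x f => ⟨x.1 f, (hΛL c x.1).1 x.2 f⟩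
        invFun := fun y => ⟨fun f => (y f).1, (hΛL c _).2 fun f => (y f).2⟩
        left_inv := fun _ => rfl
        right_inv := fun _ => rfl }
    have h3 : ∏ f, Nat.card (L c f) = vc V I c := by
      rw [← Nat.card_pi, ← Nat.card_congr e, hcard]
    have hle : ∀ g, Nat.card (L c g) ≤ if c ∈ I g then Nat.card (V g) else 1 := by
      intro g
      by_cases hg : c ∈ I g
      · rw [if_pos hg]
        exact (hLmax c g hg).1
      · rw [if_neg hg]
        have h4 : L c g = ⊥ := by
          rw [eq_bot_iff]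
          intro v hv
          have h5 := hsup c ((hmL c g v).1 hv) g (fun h => hg ((hmJ c g).1 h))
          rw [Pi.single_eq_same] at h5
          exact h5
        rw [h4]
        simp
    by_contra hne'
    have hlt : Nat.card (L c f) < if c ∈ I f then Nat.card (V f) else 1 :=
      lt_of_le_of_ne (hle f) (by rw [if_pos hc]; exact hne')
    have h5 : ∏ f, Nat.card (L c f) < ∏ f, if c ∈ I f then Nat.card (V f) else 1 :=
      Finset.prod_lt_prod (fun g _ => Nat.card_pos) (fun g _ => hle g) ⟨f, Finset.mem_univ f, hlt⟩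
    rw [h3] at h5
    exact lt_irrefl _ h5
  have hLper : ∀ c f, c ∈ I f → ∀ x, (∀ y ∈ L c f, polB (ω f) x y = 0) → x ∈ L c f :=
    fun c f hc => (hLmax c f hc).2 (hLcard c f hc).ge
  -- conclusion
  intro f
  have hLL : ∀ c ∈ I f, ∀ c' ∈ I f, L c' f ≤ L c f := by
    intro c hc c' hc' v hv
    refine hLper c f hc v fun y hy => ?_
    have h3 := hp2 c c' _ hy _ hv
    have h4 : f ∈ J c ∩ J c' := Finset.mem_inter.2 ⟨(hmJ c f).2 hc, (hmJ c' f).2 hc'⟩
    have h5 : PO ω (J c ∩ J c') (Pi.single f y) (Pi.single f v) = 0 := h3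
    rw [hPs _ f v _ h4, Pi.single_eq_same, polB_symm] at h5
    exact h5
  have hzz : ∀ c ∈ I f, ∀ c' ∈ I f, z c f + z c' f ∈ L c f := by
    intro c hc c' hc'
    refine hLper c f hc _ fun y hy => ?_
    have h4 : f ∈ J c ∩ J c' := Finset.mem_inter.2 ⟨(hmJ c f).2 hc, (hmJ c' f).2 hc'⟩
    have h3 := hq1 c c' _ ((hmL c f y).1 hy)
    rw [hQs _ f y h4, hLq c f hc y hy, zero_add, hPs _ f y _ h4] at h3
    exact h3
  obtain ⟨c₀, hc₀⟩ := hIne f
  have hdif : dif (Z f) = L c₀ f := by
    apply le_antisymm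
    · unfold dif
      refine Submodule.span_le.2 ?_
      rintro _ ⟨⟨⟨i, hi⟩, ⟨j, hj⟩⟩, rfl⟩
      have hi' : col i ∈ I f := (hB f i).1 hi
      have hj' : col j ∈ I f := (hB f j).1 hj
      show Z f ⟨i, hi⟩ + Z f ⟨j, hj⟩ ∈ L c₀ f
      rw [← hv1 i f hi, ← hv1 j f hj]
      have e1 : ∀ i, vv i f + z (col i) f ∈ L (col i) f := by
        intro i
        have h3 : vv i + z (col i) ∈ Λ (col i) :=
          Submodule.subset_span ⟨vv i, ⟨i, rfl, rfl⟩, z (col i), ⟨ic (col i), hic _, rfl⟩, rfl⟩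
        exact (hΛL _ _).1 h3 f
      have e2 := hLL c₀ hc₀ _ hi' (e1 i)
      have e3 := hLL c₀ hc₀ _ hj' (e1 j)
      have e4 := hLL c₀ hc₀ _ hi' (hzz _ hi' _ hj')
      have e5 := Submodule.add_mem _ (Submodule.add_mem _ e2 e3) e4
      have h2' : ∀ v : V f × V f, v + v = 0 := fun v => ZModModule.add_self v
      have e6 : vv i f + z (col i) f + (vv j f + z (col j) f) + (z (col i) f + z (col j) f) =
          vv i f + vv j f := by
        have : vv i f + z (col i) f + (vv j f + z (col j) f) + (z (col i) f + z (col j) f) =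
            vv i f + vv j f + (z (col i) f + z (col i) f) + (z (col j) f + z (col j) f) := by abel
        rw [this, h2', h2', add_zero, add_zero]
      rwa [e6] at e5
    · intro v hv
      obtain ⟨i, hi, hiv⟩ := (hcos c₀).2 _ ((hmL c₀ f v).1 hv)
      have hb1 : B f i := (hB f i).2 (by rw [hi]; exact hc₀)
      have hb2 : B f (ic c₀) := (hB f _).2 (by rw [hic]; exact hc₀)
      have h3 : v = Z f ⟨i, hb1⟩ + Z f ⟨ic c₀, hb2⟩ := by
        rw [← hv1 i f hb1, ← hv1 _ f hb2, hiv, Pi.add_apply, Pi.single_eq_same]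
        have h2' : ∀ v : V f × V f, v + v = 0 := fun v => ZModModule.add_self v
        show v = z c₀ f + v + z c₀ f
        rw [add_right_comm, h2', zero_add]
      rw [h3]
      exact Submodule.subset_span ⟨(⟨i, hb1⟩, ⟨ic c₀, hb2⟩), rfl⟩
  rw [hdif]
  exact ⟨hLq c₀ f hc₀, hLcard c₀ f hc₀⟩

end Pool.Agent.Q203.LD
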